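import Pool.Agent.W203.SP.Stm
import Pool.Agent.W777.DL.TT

/-! Project SP, step OSC: local mean square of an oscillatory integral with expanding phase. -/

set_option autoImplicit false
set_option maxHeartbeats 4000000

namespace Pool.Agent.W85.SP

open MeasureTheory Set Complex
open scoped ENNReal NNReal ComplexConjugate
open Pool.Agent.W203.SP

theorem ee_norm (x : ℝ) : ‖ee x‖ = 1 := by
  unfold ee
  exact Complex.norm_exp_ofReal_mul_I _

theorem ee_mul_conj (x y : ℝ) : ee x * conj (ee y) = ee (x - y) := by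
  unfold ee
  rw [← Complex.exp_conj, ← Complex.exp_add]
  congr 1
  rw [map_mul, Complex.conj_I, Complex.conj_ofReal]
  push_cast
  ring

theorem ee_cont : Continuous ee := by
  unfold ee
  fun_prop

/-- Gaussian weight -/
noncomputable def gw (Λ l : ℝ) : ℝ≥0 := Real.toNNReal (Real.exp (-(Real.pi / Λ ^ 2) * l ^ 2))

theorem gw_coe (Λ l : ℝ) : ((gw Λ l : ℝ≥0) : ℝ) = Real.exp (-(Real.pi / Λ ^ 2) * l ^ 2) :=
  Real.coe_toNNReal _ (Real.exp_pos _).le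

theorem gw_meas (Λ : ℝ) : Measurable (gw Λ) := by
  unfold gw
  fun_prop

theorem gw_ofReal (Λ l : ℝ) : (gw Λ l : ℝ≥0∞) =
    ENNReal.ofReal (Real.exp (-(Real.pi / Λ ^ 2) * l ^ 2)) := rfl

theorem gint (Λ u : ℝ) (hΛ : 0 < Λ) :
    ∫ l : ℝ, ee (l * u) ∂(volume.withDensity (fun l => (gw Λ l : ℝ≥0∞))) =
      ((Λ * Real.exp (-(Real.pi * Λ ^ 2 * u ^ 2)) : ℝ) : ℂ) := by
  rw [integral_withDensity_eq_integral_smul (gw_meas Λ)]
  have hπ := Real.pi_pos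
  have hb : 0 < (((Real.pi / Λ ^ 2 : ℝ) : ℂ)).re := by
    rw [Complex.ofReal_re]
    positivity
  have h := fourierIntegral_gaussian hb ((2 * Real.pi * u : ℝ) : ℂ)
  have e1 : ∀ l : ℝ, gw Λ l • ee (l * u) = cexp (I * ((2 * Real.pi * u : ℝ) : ℂ) * l) *
      cexp (-((Real.pi / Λ ^ 2 : ℝ) : ℂ) * l ^ 2) := by
    intro l
    rw [NNReal.smul_def, gw_coe, Complex.real_smul]
    unfold ee
    rw [Complex.ofReal_exp, mul_comm]
    congr 1
    · congr 1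
      push_cast
      ring
    · congr 1
      push_cast
      ring
  simp only [e1]
  rw [h]
  have e2 : ((Real.pi : ℂ) / ((Real.pi / Λ ^ 2 : ℝ) : ℂ)) = ((Λ ^ 2 : ℝ) : ℂ) := by
    rw [← Complex.ofReal_div]
    congr 1
    field_simp
  have e3 : (((Λ ^ 2 : ℝ) : ℂ)) ^ (1 / 2 : ℂ) = (Λ : ℂ) := by
    have : (1 / 2 : ℂ) = ((1 / 2 : ℝ) : ℂ) := by
      push_cast
      rfl
    rw [this, ← Complex.ofReal_cpow (by positivity), ← Real.sqrt_eq_rpow, Real.sqrt_sq hΛ.le]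
  rw [e2, e3, Complex.ofReal_mul Λ, Complex.ofReal_exp]
  congr 2
  rw [← Complex.ofReal_pow, ← Complex.ofReal_neg]
  have : ((4 : ℂ) * ((Real.pi / Λ ^ 2 : ℝ) : ℂ)) = ((4 * (Real.pi / Λ ^ 2) : ℝ) : ℂ) := by
    push_cast
    rfl
  rw [this, ← Complex.ofReal_div]
  congr 1
  field_simp
  ring

theorem kint (Λ κ : ℝ) (hΛ : 0 < Λ) (hκ : 0 < κ) :
    ∫⁻ x : ℝ, ENNReal.ofReal (Λ * Real.exp (-(Real.pi * Λ ^ 2 * κ ^ 2) * x ^ 2)) =
      ENNReal.ofReal (1 / κ) := by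
  have hπ := Real.pi_pos
  rw [← ofReal_integral_eq_lintegral_ofReal]
  · rw [integral_const_mul, integral_gaussian]
    congr 1
    have : Real.pi / (Real.pi * Λ ^ 2 * κ ^ 2) = (1 / (Λ * κ)) ^ 2 := by
      field_simp
    rw [this, Real.sqrt_sq (by positivity)]
    field_simp
  · exact (integrable_exp_neg_mul_sq (by positivity)).const_mul _
  · exact Filter.Eventually.of_forall fun x => by positivity

theorem enorm_real_nonneg (r : ℝ) (hr : 0 ≤ r) : ‖((r : ℝ) : ℂ)‖ₑ = ENNReal.ofReal r := by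
  rw [← ofReal_norm, Complex.norm_real, Real.norm_of_nonneg hr]

theorem amgm (x y : ℂ) : 2 * (‖x‖ₑ * ‖y‖ₑ) ≤ ‖x‖ₑ ^ 2 + ‖y‖ₑ ^ 2 := by
  have h : 2 * (‖x‖ * ‖y‖) ≤ ‖x‖ ^ 2 + ‖y‖ ^ 2 := by nlinarith [sq_nonneg (‖x‖ - ‖y‖)]
  have h2 := ENNReal.ofReal_le_ofReal h
  rw [ENNReal.ofReal_add (by positivity) (by positivity), ENNReal.ofReal_mul (by norm_num),
    ENNReal.ofReal_mul (norm_nonneg _), ENNReal.ofReal_pow (norm_nonneg _),
    ENNReal.ofReal_pow (norm_nonneg _), ofReal_norm, ofReal_norm] at h2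
  have h3 : ENNReal.ofReal (2 : ℝ) = 2 := by simp
  rwa [h3] at h2

theorem t_OSC : S_OSC := by
  intro a b κ Λ B φ g hab hκ hΛ hφ hexp hg hgB hg0
  have hπ := Real.pi_pos
  have hB0 : 0 ≤ B := (norm_nonneg _).trans (hgB 0)
  have hfin : IsFiniteMeasure (volume.withDensity (fun l => (gw Λ l : ℝ≥0∞))) := by
    apply isFiniteMeasure_withDensity
    have h1 : Integrable (fun l : ℝ => Real.exp (-(Real.pi / Λ ^ 2) * l ^ 2)) :=
      integrable_exp_neg_mul_sq (by positivity)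
    exact h1.lintegral_lt_top.ne
  obtain ⟨μ, hμ⟩ : ∃ μ : Measure ℝ, μ = volume.withDensity (fun l => (gw Λ l : ℝ≥0∞)) := ⟨_, rfl⟩
  have hfin' : IsFiniteMeasure μ := by rw [hμ]; exact hfin
  obtain ⟨ν, hν⟩ : ∃ ν : Measure ℝ, ν = volume.restrict (Icc a b) := ⟨_, rfl⟩
  have hfinν : IsFiniteMeasure ν := by
    rw [hν]
    infer_instance
  obtain ⟨X, hXd⟩ : ∃ X : ℝ → ℝ → ℂ, X = fun l r => g r * ee (l * φ r) := ⟨_, rfl⟩
  have hX : Measurable (Function.uncurry X) := by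
    rw [hXd]
    exact (hg.comp measurable_snd).mul
      (ee_cont.measurable.comp (measurable_fst.mul (hφ.comp measurable_snd)))
  have hXB : ∀ l r, ‖X l r‖ ≤ B := by
    intro l r
    rw [hXd]
    simp only
    rw [norm_mul, ee_norm, mul_one]
    exact hgB r
  have htt := Pool.Agent.W777.DL.tt μ ν X B hX hXB
  obtain ⟨K, hK⟩ : ∃ K : ℝ → ℝ≥0∞,
      K = fun x => ENNReal.ofReal (Λ * Real.exp (-(Real.pi * Λ ^ 2 * κ ^ 2) * x ^ 2)) := ⟨_, rfl⟩
  have hKm : Measurable K := by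
    rw [hK]
    fun_prop
  have hKint : ∫⁻ x, K x = ENNReal.ofReal (1 / κ) := by
    rw [hK]
    exact kint Λ κ hΛ hκ
  have hKodd : ∀ x, K (-x) = K x := by
    intro x
    rw [hK]
    simp only [neg_sq]
  have hK1 : ∀ z, ∫⁻ z', K (z - z') = ENNReal.ofReal (1 / κ) := by
    intro z
    rw [lintegral_sub_left_eq_self K z, hKint]
  have hK2 : ∀ z', ∫⁻ z, K (z - z') = ENNReal.ofReal (1 / κ) := by
    intro z'
    rw [lintegral_sub_right_eq_self K z', hKint]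
  -- inner integral
  have hinner : ∀ z z', 2 * ‖∫ l, X l z * conj (X l z') ∂μ‖ₑ ≤
      (‖g z‖ₑ ^ 2 + ‖g z'‖ₑ ^ 2) * K (z - z') := by
    intro z z'
    have e1 : ∀ l, X l z * conj (X l z') = (g z * conj (g z')) * ee (l * (φ z - φ z')) := by
      intro l
      rw [hXd]
      simp only
      rw [map_mul, mul_sub l, ← ee_mul_conj]
      ring
    simp only [e1]
    rw [integral_const_mul, hμ, gint Λ _ hΛ, enorm_mul, enorm_mul, RCLike.enorm_conj,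
      enorm_real_nonneg _ (by positivity)]
    by_cases hz : z ∈ Icc a b
    · by_cases hz' : z' ∈ Icc a b
      · have h1 : ENNReal.ofReal (Λ * Real.exp (-(Real.pi * Λ ^ 2 * (φ z - φ z') ^ 2))) ≤
            K (z - z') := by
          rw [hK]
          apply ENNReal.ofReal_le_ofReal
          apply mul_le_mul_of_nonneg_left _ hΛ.le
          apply Real.exp_le_exp.2
          have h2 := hexp z hz z' hz'
          have h3 : κ ^ 2 * (z - z') ^ 2 ≤ (φ z - φ z') ^ 2 := by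
            have h4 : (κ * |z - z'|) ^ 2 ≤ |φ z - φ z'| ^ 2 :=
              pow_le_pow_left₀ (by positivity) h2 2
            rw [mul_pow, sq_abs, sq_abs] at h4
            exact h4
          have h5 : 0 ≤ Real.pi * Λ ^ 2 := by positivity
          nlinarith
        calc 2 * (‖g z‖ₑ * ‖g z'‖ₑ *
              ENNReal.ofReal (Λ * Real.exp (-(Real.pi * Λ ^ 2 * (φ z - φ z') ^ 2))))
            = (2 * (‖g z‖ₑ * ‖g z'‖ₑ)) *
              ENNReal.ofReal (Λ * Real.exp (-(Real.pi * Λ ^ 2 * (φ z - φ z') ^ 2))) := by ring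
          _ ≤ _ := mul_le_mul' (amgm _ _) h1
      · rw [hg0 z' hz']
        simp
    · rw [hg0 z hz]
      simp
  have hGm : Measurable (fun z => ‖g z‖ₑ ^ 2) := by fun_prop
  have hdouble : 2 * ∫⁻ z, ∫⁻ z', ‖∫ l, X l z * conj (X l z') ∂μ‖ₑ ∂ν ∂ν ≤
      2 * (ENNReal.ofReal (1 / κ) * ∫⁻ r, ‖g r‖ₑ ^ 2) := by
    rw [← lintegral_const_mul' _ _ (by norm_num)]
    have e1 : ∀ z, 2 * ∫⁻ z', ‖∫ l, X l z * conj (X l z') ∂μ‖ₑ ∂ν =
        ∫⁻ z', 2 * ‖∫ l, X l z * conj (X l z') ∂μ‖ₑ ∂ν := by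
      intro z
      rw [lintegral_const_mul' _ _ (by norm_num)]
    simp only [e1]
    calc ∫⁻ z, ∫⁻ z', 2 * ‖∫ l, X l z * conj (X l z') ∂μ‖ₑ ∂ν ∂ν
        ≤ ∫⁻ z, ∫⁻ z', (‖g z‖ₑ ^ 2 + ‖g z'‖ₑ ^ 2) * K (z - z') ∂ν ∂ν :=
          lintegral_mono fun z => lintegral_mono fun z' => hinner z z'
      _ ≤ ∫⁻ z, ∫⁻ z', (‖g z‖ₑ ^ 2 + ‖g z'‖ₑ ^ 2) * K (z - z') := by
          rw [hν]
          exact (lintegral_mono fun z => setLIntegral_le_lintegral _ _).trans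
            (setLIntegral_le_lintegral _ _)
      _ = ∫⁻ z, ((ENNReal.ofReal (1 / κ)) * ‖g z‖ₑ ^ 2 + ∫⁻ z', ‖g z'‖ₑ ^ 2 * K (z - z')) := by
          apply lintegral_congr
          intro z
          have e2 : ∀ z', (‖g z‖ₑ ^ 2 + ‖g z'‖ₑ ^ 2) * K (z - z') =
              ‖g z‖ₑ ^ 2 * K (z - z') + ‖g z'‖ₑ ^ 2 * K (z - z') := fun z' => add_mul _ _ _
          simp only [e2]
          rw [lintegral_add_left (by fun_prop), lintegral_const_mul _ (by fun_prop), hK1 z,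
            mul_comm]
      _ = (ENNReal.ofReal (1 / κ)) * (∫⁻ z, ‖g z‖ₑ ^ 2) +
            ∫⁻ z, ∫⁻ z', ‖g z'‖ₑ ^ 2 * K (z - z') := by
          rw [lintegral_add_left (by fun_prop), lintegral_const_mul _ hGm]
      _ = (ENNReal.ofReal (1 / κ)) * (∫⁻ z, ‖g z‖ₑ ^ 2) +
            (ENNReal.ofReal (1 / κ)) * (∫⁻ z, ‖g z‖ₑ ^ 2) := by
          congr 1
          rw [lintegral_lintegral_swap (by fun_prop)]
          have e3 : ∀ z', ∫⁻ z, ‖g z'‖ₑ ^ 2 * K (z - z') =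
              (ENNReal.ofReal (1 / κ)) * ‖g z'‖ₑ ^ 2 := by
            intro z'
            rw [lintegral_const_mul _ (by fun_prop), hK2 z', mul_comm]
          simp only [e3]
          rw [lintegral_const_mul _ hGm]
      _ = 2 * (ENNReal.ofReal (1 / κ) * ∫⁻ r, ‖g r‖ₑ ^ 2) := by ring
  have hdouble' : ∫⁻ z, ∫⁻ z', ‖∫ l, X l z * conj (X l z') ∂μ‖ₑ ∂ν ∂ν ≤
      ENNReal.ofReal (1 / κ) * ∫⁻ r, ‖g r‖ₑ ^ 2 :=
    (ENNReal.mul_le_mul_iff_right (by norm_num) (by norm_num)).1 hdouble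
  have hA : ∀ l, ∫ r, g r * ee (l * φ r) = ∫ r, X l r ∂ν := by
    intro l
    rw [hν, hXd]
    symm
    apply setIntegral_eq_integral_of_forall_compl_eq_zero
    intro r hr
    simp only
    rw [hg0 r hr, zero_mul]
  have hAm : Measurable (fun l => ∫ r, X l r ∂ν) := hX.stronglyMeasurable.integral_prod_right'.measurable
  have hleft : ∫⁻ l in Icc (-Λ) Λ, ‖∫ r, g r * ee (l * φ r)‖ₑ ^ 2 ≤
      ENNReal.ofReal (Real.exp Real.pi) * ∫⁻ l, ‖∫ r, X l r ∂ν‖ₑ ^ 2 ∂μ := by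
    simp only [hA]
    rw [hμ, lintegral_withDensity_eq_lintegral_mul _ (gw_meas Λ).coe_nnreal_ennreal
      (by fun_prop : Measurable (fun l => ‖∫ r, X l r ∂ν‖ₑ ^ 2)),
      ← lintegral_const_mul' _ _ ENNReal.ofReal_ne_top]
    refine le_trans ?_ (setLIntegral_le_lintegral (Icc (-Λ) Λ) _)
    apply setLIntegral_mono' measurableSet_Icc
    intro l hl
    rw [Pi.mul_apply, ← mul_assoc, gw_ofReal, ← ENNReal.ofReal_mul (Real.exp_pos _).le,
      ← Real.exp_add]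
    have h1 : (1 : ℝ) ≤ Real.exp (Real.pi + -(Real.pi / Λ ^ 2) * l ^ 2) := by
      apply Real.one_le_exp
      have h2 : l ^ 2 ≤ Λ ^ 2 := sq_le_sq' hl.1 hl.2
      have h3 : Real.pi / Λ ^ 2 * l ^ 2 ≤ Real.pi := by
        rw [div_mul_eq_mul_div, div_le_iff₀ (by positivity)]
        exact mul_le_mul_of_nonneg_left h2 hπ.le
      linarith
    calc ‖∫ r, X l r ∂ν‖ₑ ^ 2 = 1 * ‖∫ r, X l r ∂ν‖ₑ ^ 2 := (one_mul _).symm
      _ ≤ _ := by
          apply mul_le_mul' _ le_rfl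
          rw [← ENNReal.ofReal_one]
          exact ENNReal.ofReal_le_ofReal h1
  calc ∫⁻ l in Icc (-Λ) Λ, ‖∫ r, g r * ee (l * φ r)‖ₑ ^ 2
      ≤ ENNReal.ofReal (Real.exp Real.pi) * ∫⁻ l, ‖∫ r, X l r ∂ν‖ₑ ^ 2 ∂μ := hleft
    _ ≤ ENNReal.ofReal (Real.exp Real.pi) * (ENNReal.ofReal (1 / κ) * ∫⁻ r, ‖g r‖ₑ ^ 2) :=
        mul_le_mul' le_rfl (htt.trans hdouble')
    _ = ENNReal.ofReal (Real.exp Real.pi / κ) * ∫⁻ r, ‖g r‖ₑ ^ 2 := by
        rw [← mul_assoc, ← ENNReal.ofReal_mul (Real.exp_pos _).le]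
        congr 2
        ring

end Pool.Agent.W85.SP
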